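import Pool.Agent.Helper91.MC9.Spec

/-!
# Swarm MC9, part CONE: a vertex adjacent to a complete minor
-/

set_option autoImplicit false

namespace Pool.Agent.Helper24.MC9.CONE

open SimpleGraph Pool.Agent.Helper91.MC9

/-- connectedness of the image of a connected set of an induced graph -/
theorem conn_image {V : Type} (G : SimpleGraph V) (S : Set V) (B : Set S)
    (h : ((G.induce S).induce B).Connected) : (G.induce ((↑) '' B : Set V)).Connected := by
  let f : ((G.induce S).induce B) →g (G.induce ((↑) '' B : Set V)) :=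
    { toFun := fun b => ⟨(b.1 : V), ⟨b.1, b.2, rfl⟩⟩
      map_rel' := by
        intro a b hab
        exact hab }
  have hf : Function.Surjective f := by
    rintro ⟨v, ⟨b, hb, rfl⟩⟩
    exact ⟨⟨b, hb⟩, rfl⟩
  exact h.map f hf

theorem conn_single {V : Type} (G : SimpleGraph V) (x : V) :
    (G.induce ({x} : Set V)).Connected := by
  have : Nonempty ({x} : Set V) := ⟨⟨x, rfl⟩⟩
  refine ⟨?_⟩
  rintro ⟨a, ha⟩ ⟨b, hb⟩
  have h1 : a = x := ha
  have h2 : b = x := hb
  subst h1; subst h2
  exact Reachable.refl _

theorem main : S_CONE := by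
  rintro t V G x ⟨B, h1, h2, h3⟩
  refine ⟨Fin.cases {x} (fun i => (↑) '' B i), ?_, ?_, ?_⟩
  · intro w
    refine Fin.cases ?_ ?_ w
    · exact conn_single G x
    · intro i
      exact conn_image G _ (B i) (h1 i)
  · intro a b hab
    have hx : ∀ i : Fin t, Disjoint ({x} : Set V) ((↑) '' B i : Set V) := by
      intro i
      rw [Set.disjoint_singleton_left]
      rintro ⟨b, -, hb⟩
      have := b.2
      rw [hb] at this
      exact G.loopless.irrefl x this
    revert hab
    refine Fin.cases ?_ ?_ a
    · refine Fin.cases ?_ ?_ b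
      · intro h; exact absurd rfl h
      · intro i _; exact hx i
    · intro i
      refine Fin.cases ?_ ?_ b
      · intro _; exact (hx i).symm
      · intro j hij
        have hne : i ≠ j := fun h => hij (by rw [h])
        exact Set.disjoint_image_iff Subtype.val_injective |>.2 (h2 hne)
  · intro a b hab
    have hxi : ∀ i : Fin t, ∃ y ∈ ((↑) '' B i : Set V), G.Adj x y := by
      intro i
      obtain ⟨y, hy⟩ := (h1 i).nonempty
      exact ⟨y, ⟨y, hy, rfl⟩, y.2⟩
    revert hab
    refine Fin.cases ?_ ?_ a
    · refine Fin.cases ?_ ?_ b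
      · intro h; exact absurd rfl h
      · intro i _
        obtain ⟨y, hy, hxy⟩ := hxi i
        exact ⟨x, rfl, y, hy, hxy⟩
    · intro i
      refine Fin.cases ?_ ?_ b
      · intro _
        obtain ⟨y, hy, hxy⟩ := hxi i
        exact ⟨y, hy, x, rfl, hxy.symm⟩
      · intro j hij
        have hne : i ≠ j := fun h => hij (by rw [h])
        obtain ⟨p, hp, q, hq, hpq⟩ := h3 i j hne
        exact ⟨p, ⟨p, hp, rfl⟩, q, ⟨q, hq, rfl⟩, hpq⟩

end Pool.Agent.Helper24.MC9.CONE
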