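import Pool.Agent.Helper91.MC9.Spec

/-!
# Swarm MC9, part COPE: the number of edges of the copies of a graph
-/

set_option autoImplicit false

namespace Pool.Agent.Helper24.MC9.COPE

open SimpleGraph Pool.Agent.Helper91.MC9

/-- the edge in the copy `i` -/
def emb {V : Type} {m : ℕ} (p : Fin m × Sym2 V) : Sym2 (Fin m × V) :=
  Sym2.map (fun v => (p.1, v)) p.2

theorem emb_inj {V : Type} {m : ℕ} : Function.Injective (emb (V := V) (m := m)) := by
  rintro ⟨i, e⟩ ⟨j, f⟩ h
  induction e using Sym2.ind with
  | _ a b =>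
    induction f using Sym2.ind with
    | _ c d =>
      unfold emb at h
      simp only [Sym2.map_mk] at h
      rw [Sym2.eq_iff] at h
      rcases h with ⟨h1, h2⟩ | ⟨h1, h2⟩
      · simp only [Prod.mk.injEq] at h1 h2
        obtain ⟨h1a, h1b⟩ := h1
        obtain ⟨h2a, h2b⟩ := h2
        subst h1a; subst h1b; subst h2b
        rfl
      · simp only [Prod.mk.injEq] at h1 h2
        obtain ⟨h1a, h1b⟩ := h1
        obtain ⟨h2a, h2b⟩ := h2
        subst h1a; subst h1b; subst h2b
        rw [Sym2.eq_swap]

theorem main : S_COPE := by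
  intro V _ m G
  have hset : (copies m G).edgeSet = emb '' ((Set.univ : Set (Fin m)) ×ˢ G.edgeSet) := by
    ext e
    induction e using Sym2.ind with
    | _ a b =>
      obtain ⟨i, x⟩ := a
      obtain ⟨j, y⟩ := b
      rw [SimpleGraph.mem_edgeSet]
      constructor
      · rintro ⟨h1, h2⟩
        simp only at h1 h2
        subst h1
        exact ⟨(i, s(x, y)), ⟨Set.mem_univ _, h2⟩, rfl⟩
      · rintro ⟨⟨k, e⟩, ⟨-, he⟩, hk⟩
        induction e using Sym2.ind with
        | _ c d =>
          unfold emb at hk
          simp only [Sym2.map_mk] at hk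
          rw [Sym2.eq_iff] at hk
          rcases hk with ⟨h1, h2⟩ | ⟨h1, h2⟩
          · simp only [Prod.mk.injEq] at h1 h2
            obtain ⟨h1a, h1b⟩ := h1
            obtain ⟨h2a, h2b⟩ := h2
            subst h1a; subst h1b; subst h2b
            exact ⟨h2a, he⟩
          · simp only [Prod.mk.injEq] at h1 h2
            obtain ⟨h1a, h1b⟩ := h1
            obtain ⟨h2a, h2b⟩ := h2
            subst h1a; subst h1b; subst h2b
            exact ⟨h2a.symm, SimpleGraph.Adj.symm he⟩
  rw [hset, Set.ncard_image_of_injective _ emb_inj, Set.ncard_prod, Set.ncard_univ,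
    Nat.card_eq_fintype_card, Fintype.card_fin]

end Pool.Agent.Helper24.MC9.COPE
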