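import Pool.Agent.Helper91.MC9.Spec

/-!
# Swarm MC9, part ESET: `E_ℋ(n)` is nonempty and bounded
-/

set_option autoImplicit false

namespace Pool.Agent.Helper24.MC9.ESET

open SimpleGraph Pool.Agent.Helper91.MC9

theorem main (hSAT : S_SAT) : S_ESET := by
  rintro ℋ ⟨-, hne⟩
  have hbot : ∀ (V : Type), Free ℋ (⊥ : SimpleGraph V) := by
    rintro V H hH ⟨B, -, -, h3⟩
    apply hne H hH
    rw [eq_bot_iff]
    intro a b hab
    obtain ⟨x, -, y, -, hxy⟩ := h3 a b hab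
    exact (hxy : False).elim
  refine ⟨hbot, ?_⟩
  intro n
  have h1 : (Eset ℋ n).Nonempty := by
    obtain ⟨G', -, hG'⟩ := hSAT ℋ (Fin n) ⊥ (hbot (Fin n))
    exact ⟨G'.edgeSet.ncard, Fin n, inferInstance, G', by rw [Nat.card_eq_fintype_card, Fintype.card_fin],
      hG', rfl⟩
  have h2 : BddAbove (Eset ℋ n) := by
    refine ⟨n.choose 2, ?_⟩
    rintro e ⟨V, hV, G, hc, -, rfl⟩
    classical
    have := Fintype.ofFinite V
    have h3 := G.card_edgeFinset_le_card_choose_two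
    rw [← Nat.card_eq_fintype_card, hc] at h3
    rwa [← SimpleGraph.coe_edgeFinset, Set.ncard_coe_finset]
  refine ⟨h1, h2, Nat.sSup_mem h1 h2, Nat.sInf_mem h1, ?_⟩
  exact le_csSup h2 (Nat.sInf_mem h1)

end Pool.Agent.Helper24.MC9.ESET
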